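import Pool.Agent.V11257.NSA

/-!
# Multiplication does not respect divisibility-equivalence of ultrafilters

Let `P, Q` be nonprincipal ultrafilters that contain disjoint sets `D₀, D₁` of primes.  In a
nonstandard extension with nonempty monads there are `x < z < y` with `v x = v y = P` and `v z = Q`.
The upward closure of the set of the products `p q`, where `p ∈ D₀`, `q ∈ D₁` and `p < q`, belongs to
`v (x z)` but not to `v (y z)`.
-/

set_option autoImplicit false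

namespace Pool.Agent.Results.MP_5ff22d_lc.ProductNotEquiv

open Pool.Agent.V11257.NSA Filter FirstOrder FirstOrder.Language

universe u

/-- The set of the multiples of the elements of `A`. -/
def up (A : Set ℕ) : Set ℕ := {n | ∃ a ∈ A, a ∣ n}

/-- The relation `=_∼` between families of sets of natural numbers (ultrafilters): they contain the
same upward closed sets. -/
def TildeEq (p q : Set (Set ℕ)) : Prop := ∀ A : Set ℕ, up A = A → (A ∈ p ↔ A ∈ q)

/-- Enumerations of two disjoint sets of primes. -/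
noncomputable def d (i n : ℕ) : ℕ := Nat.nth Nat.Prime (2 * n + i)

theorem d_prime (i n : ℕ) : (d i n).Prime := Nat.prime_nth_prime _

theorem d_ne (m n : ℕ) : d 0 m ≠ d 1 n := by
  intro h
  have := Nat.nth_injective Nat.infinite_setOfPred_prime h
  omega

theorem d_mono (i : ℕ) : StrictMono (d i) := by
  intro m n hmn
  exact Nat.nth_strictMono Nat.infinite_setOfPred_prime (by omega)

/-- The set of the products in order. -/
def A₀ : Set ℕ := {n | ∃ a b, d 0 a < d 1 b ∧ n = d 0 a * d 1 b}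

theorem up_up (A : Set ℕ) : up (up A) = up A := by
  ext n
  constructor
  · rintro ⟨m, ⟨a, ha, ham⟩, hmn⟩
    exact ⟨a, ha, ham.trans hmn⟩
  · intro hn
    exact ⟨n, hn, dvd_rfl⟩

theorem mul_mem {a b : ℕ} : d 0 a * d 1 b ∈ up A₀ ↔ d 0 a < d 1 b := by
  constructor
  · rintro ⟨n, ⟨a', b', hlt, rfl⟩, hdvd⟩
    have h1 : d 0 a' ∣ d 0 a := by
      rcases (d_prime 0 a').dvd_mul.1 ((dvd_mul_right _ _).trans hdvd) with h | h
      · exact h
      · exact absurd ((Nat.prime_dvd_prime_iff_eq (d_prime 0 a') (d_prime 1 b)).1 h) (d_ne _ _)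
    have h2 : d 1 b' ∣ d 1 b := by
      rcases (d_prime 1 b').dvd_mul.1 ((dvd_mul_left _ _).trans hdvd) with h | h
      · exact absurd ((Nat.prime_dvd_prime_iff_eq (d_prime 1 b') (d_prime 0 a)).1 h).symm (d_ne _ _)
      · exact h
    rw [(Nat.prime_dvd_prime_iff_eq (d_prime 0 a') (d_prime 0 a)).1 h1,
      (Nat.prime_dvd_prime_iff_eq (d_prime 1 b') (d_prime 1 b)).1 h2] at hlt
    exact hlt
  · intro h
    exact ⟨_, ⟨a, b, h, rfl⟩, dvd_rfl⟩

/-- The ultrafilters `P` and `Q`. -/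
noncomputable def P (i : ℕ) : Ultrafilter ℕ := (hyperfilter ℕ).map (d i)

theorem P_range (i : ℕ) : Set.range (d i) ∈ P i :=
  Eventually.of_forall (f := (hyperfilter ℕ : Filter ℕ)) fun n => ⟨n, rfl⟩

theorem P_gt (i k : ℕ) : ∀ᶠ n in (P i : Filter ℕ), k < n := by
  change ∀ᶠ n in (hyperfilter ℕ : Filter ℕ), k < d i n
  have h : (Set.Iic k)ᶜ ∈ (hyperfilter ℕ : Filter ℕ) :=
    Filter.hyperfilter_le_cofinite (by
      rw [Filter.mem_cofinite, compl_compl]; exact Set.finite_Iic k)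
  filter_upwards [h] with n hn
  have h1 : k < n := by simpa using hn
  exact h1.trans_le ((d_mono i).id_le n)

/-- The tensor product `P ⊗ Q ⊗ P`. -/
noncomputable def W : Ultrafilter (ℕ × ℕ × ℕ) :=
  (P 0).bind fun a => (P 1).bind fun b => (P 0).map fun c => (a, b, c)

theorem mem_W {A : Set (ℕ × ℕ × ℕ)} :
    A ∈ W ↔ ∀ᶠ a in (P 0 : Filter ℕ), ∀ᶠ b in (P 1 : Filter ℕ), ∀ᶠ c in (P 0 : Filter ℕ),
      (a, b, c) ∈ A := Iff.rfl

theorem W_good : {t : ℕ × ℕ × ℕ | t.1 ∈ Set.range (d 0) ∧ t.2.1 ∈ Set.range (d 1) ∧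
    t.2.2 ∈ Set.range (d 0) ∧ t.1 < t.2.1 ∧ t.2.1 < t.2.2} ∈ W := by
  rw [mem_W]
  filter_upwards [P_range 0] with a ha
  filter_upwards [P_range 1, P_gt 1 a] with b hb hab
  filter_upwards [P_range 0, P_gt 0 b] with c hc hbc
  exact ⟨ha, hb, hc, hab, hbc⟩

/-- In every nonstandard extension of the natural numbers in which all monads are nonempty there are
pairwise distinct primes `x, y, z` with `v x = v y` such that `v (x z)` and `v (y z)` are not
`=_∼`-equivalent; and there are such extensions. -/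
theorem result :
    (∀ (X : Type u) [(full ℕ).Structure X], IsExt ℕ X →
      (∀ F : Ultrafilter ℕ, (monad X F).Nonempty) →
      ∃ x y z : X, x ∈ star X {p : ℕ | p.Prime} ∧ y ∈ star X {p : ℕ | p.Prime} ∧ z ∈ star X {p : ℕ | p.Prime} ∧
        x ≠ y ∧ x ≠ z ∧ y ≠ z ∧ vv ℕ x = vv ℕ y ∧
        ¬ TildeEq (vv ℕ (starOp (B := ℕ) (· * ·) x z)) (vv ℕ (starOp (B := ℕ) (· * ·) y z))) ∧
    (∃ (X : Type) (_ : (full ℕ).Structure X), IsExt ℕ X ∧
      ∀ F : Ultrafilter ℕ, (monad X F).Nonempty) := by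
  refine ⟨?_, exists_ext ℕ⟩
  intro X _ h hmon
  obtain ⟨e⟩ : Nonempty (ℕ ≃ ℕ × ℕ × ℕ) := nonempty_equiv_of_countable
  obtain ⟨x, z, y, hx, hz, hy, -, -, h1, h2⟩ := exists_triple h e hmon W
  have hW1 : W.map (fun t => t.1) = P 0 := by
    ext A
    change (fun t : ℕ × ℕ × ℕ => t.1) ⁻¹' A ∈ W ↔ A ∈ P 0
    rw [mem_W]
    simp only [Set.mem_preimage, eventually_const]
    exact Iff.rfl
  have hW2 : W.map (fun t => t.2.1) = P 1 := by
    ext A
    change (fun t : ℕ × ℕ × ℕ => t.2.1) ⁻¹' A ∈ W ↔ A ∈ P 1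
    rw [mem_W]
    simp only [Set.mem_preimage, eventually_const]
    exact Iff.rfl
  have hW3 : W.map (fun t => t.2.2) = P 0 := by
    ext A
    change (fun t : ℕ × ℕ × ℕ => t.2.2) ⁻¹' A ∈ W ↔ A ∈ P 0
    rw [mem_W]
    simp only [Set.mem_preimage, eventually_const]
    exact Iff.rfl
  rw [hW1] at hx
  rw [hW2] at hz
  rw [hW3] at hy
  have hpr : ∀ i, {p : ℕ | p.Prime} ∈ P i := fun i =>
    mem_of_superset (P_range i) (by rintro _ ⟨n, rfl⟩; exact d_prime i n)
  have hneq : ∀ w : X, w ∈ monad X (P 0) → w ≠ z := by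
    rintro w hw rfl
    have h3 := hw _ (P_range 0)
    have h4 := hz (Set.range (d 0))ᶜ (mem_of_superset (P_range 1) (by
      rintro _ ⟨n, rfl⟩ ⟨m, hm⟩
      exact d_ne m n hm))
    exact (star_compl h _ w).1 h4 h3
  have hxz : up A₀ ∈ vv ℕ (starOp (B := ℕ) (· * ·) x z) := by
    refine (h1 (· * ·) (up A₀)).2 ?_
    filter_upwards [W_good] with t ht
    obtain ⟨⟨a, ha⟩, ⟨b, hb⟩, -, hlt, -⟩ := ht
    change t.1 * t.2.1 ∈ up A₀
    rw [← ha, ← hb] at hlt ⊢
    exact mul_mem.2 hlt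
  have hyz : up A₀ ∉ vv ℕ (starOp (B := ℕ) (· * ·) y z) := by
    intro hcon
    have h3 := (h2 (· * ·) (up A₀)).1 hcon
    obtain ⟨t, ⟨-, ⟨b, hb⟩, ⟨a, ha⟩, -, hlt⟩, ht⟩ := W.nonempty_of_mem (inter_mem W_good h3)
    have ht' : t.2.2 * t.2.1 ∈ up A₀ := ht
    rw [← ha, ← hb] at ht' hlt
    exact absurd (mul_mem.1 ht') (not_lt.2 hlt.le)
  have hnot : ¬ TildeEq (vv ℕ (starOp (B := ℕ) (· * ·) x z))
      (vv ℕ (starOp (B := ℕ) (· * ·) y z)) := fun hT => hyz ((hT _ (up_up A₀)).1 hxz)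
  refine ⟨x, y, z, hx _ (hpr 0), hy _ (hpr 0), hz _ (hpr 1), ?_, hneq x hx, hneq y hy, ?_, hnot⟩
  · rintro rfl
    exact hyz hxz
  · rw [vv_of_mem_monad h hx, vv_of_mem_monad h hy]

end Pool.Agent.Results.MP_5ff22d_lc.ProductNotEquiv
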